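import Pool.Agent.Helper50_PN.Stmts

/-!
# NUM: the numerical inequality
-/

set_option autoImplicit false

open Finset

namespace Pool.Agent.PN.H9

theorem num (hNua : NuaStmt) (hNub : NubStmt) (hNuc : NucStmt) : NumStmt := by
  intro n hn
  obtain ⟨k, σ, hk, hlt⟩ := hNua n hn
  have hm : σ + 1 < n * (σ + 1) + σ := by nlinarith
  refine ⟨k, n * (σ + 1) + σ, σ + 1, hk, hm, ?_⟩
  have h1 : ∑ I ∈ (Finset.univ : Finset (Finset (Fin n))).filter (fun I => 2 ≤ I.card),
      (if h : I.Nonempty then cc n k (n * (σ + 1) + σ) (σ + 1) I (I.min' h) else 0) ≤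
      ∑ c ∈ Finset.Icc 2 n, n.choose c * PowerSeries.coeff σ (CC n k c) := by
    calc ∑ I ∈ (Finset.univ : Finset (Finset (Fin n))).filter (fun I => 2 ≤ I.card),
        (if h : I.Nonempty then cc n k (n * (σ + 1) + σ) (σ + 1) I (I.min' h) else 0)
        ≤ ∑ I ∈ (Finset.univ : Finset (Finset (Fin n))).filter (fun I => 2 ≤ I.card),
          PowerSeries.coeff σ (CC n k I.card) := by
          apply Finset.sum_le_sum
          intro I hI
          split_ifs with h
          · exact hNuc n k σ (σ + 1) I (I.min' h) hk (I.min'_mem h)
          · exact Nat.zero_le _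
      _ = ∑ I ∈ (Finset.univ : Finset (Fin n)).powerset,
          (fun c => if 2 ≤ c then PowerSeries.coeff σ (CC n k c) else 0) I.card := by
          rw [Finset.powerset_univ, Finset.sum_filter]
      _ = ∑ c ∈ Finset.range (n + 1),
          n.choose c * (if 2 ≤ c then PowerSeries.coeff σ (CC n k c) else 0) := by
          have h := Finset.sum_powerset_apply_card (x := (Finset.univ : Finset (Fin n)))
            (fun c => if 2 ≤ c then PowerSeries.coeff σ (CC n k c) else 0)
          simp only [Finset.card_univ, Fintype.card_fin, smul_eq_mul] at h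
          exact h
      _ = ∑ c ∈ Finset.Icc 2 n, n.choose c * PowerSeries.coeff σ (CC n k c) := by
          have hsub : Finset.Icc 2 n ⊆ Finset.range (n + 1) := by
            intro c hc
            rw [Finset.mem_Icc] at hc
            rw [Finset.mem_range]
            omega
          rw [← Finset.sum_subset hsub]
          · apply Finset.sum_congr rfl
            intro c hc
            rw [Finset.mem_Icc] at hc
            rw [if_pos hc.1]
          · intro c hc hc'
            rw [Finset.mem_range] at hc
            rw [Finset.mem_Icc] at hc'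
            rw [if_neg (by omega), mul_zero]
  exact lt_of_le_of_lt h1 (lt_of_lt_of_le hlt (hNub n k σ (σ + 1) hk (Nat.le_succ σ)))

end Pool.Agent.PN.H9
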